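import Pool.Agent.J4H12.PZ.Stm

/-! Job HAUS of project PZ: Hausdorff measure of sections. -/

set_option autoImplicit false

open MeasureTheory Set Filter Topology Metric
open scoped Pointwise RealInnerProductSpace ENNReal NNReal

namespace Pool.Agent.J4H45.PZ

open Pool.Agent.H638.IB Pool.Agent.J4H12.PZ

theorem t_HAUS : S_HAUS := by
  intro N hN
  have hH : Measure.IsAddHaarMeasure (Measure.hausdorffMeasure (Module.finrank ℝ (E N) : ℝ) : Measure (E N)) :=
    isAddHaarMeasure_hausdorffMeasure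
  rw [finrank_euclideanSpace_fin] at hH
  set μ : Measure (E N) := Measure.hausdorffMeasure (N : ℝ) with hμd
  have hμ : μ = Measure.addHaarScalarFactor μ volume • (volume : Measure (E N)) :=
    Measure.isAddLeftInvariant_eq_smul μ volume
  refine ⟨(Measure.addHaarScalarFactor μ volume : ℝ),
    NNReal.coe_pos.2 (Measure.addHaarScalarFactor_pos_of_isAddHaarMeasure μ volume), ?_⟩
  intro K hK u hu
  have hu0 : u ≠ 0 := by
    intro h
    rw [h, norm_zero] at hu
    exact zero_ne_one hu
  have hfr : Module.finrank ℝ (ℝ ∙ u)ᗮ = N := by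
    have : Fact (Module.finrank ℝ (E (N + 1)) = N + 1) := ⟨by simp⟩
    exact Submodule.finrank_orthogonal_span_singleton hu0
  set S : Set (ℝ ∙ u)ᗮ := {y | (y : E (N + 1)) ∈ K} with hS
  have hSm : MeasurableSet S := (hK.compact.isClosed.preimage continuous_subtype_val).measurableSet
  have e : (ℝ ∙ u)ᗮ ≃ₗᵢ[ℝ] E N := ((stdOrthonormalBasis ℝ (ℝ ∙ u)ᗮ).reindex (finCongr hfr)).repr
  have h1 : K ∩ {x | inner ℝ u x = 0} = Subtype.val '' S := by
    ext x
    constructor
    · rintro ⟨hx, hx0⟩
      exact ⟨⟨x, Submodule.mem_orthogonal_singleton_iff_inner_right.2 hx0⟩, hx, rfl⟩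
    · rintro ⟨y, hy, rfl⟩
      exact ⟨hy, Submodule.mem_orthogonal_singleton_iff_inner_right.1 y.2⟩
  have hd : (((N + 1 : ℕ) : ℝ) - 1) = N := by push_cast; ring
  have h2 : Measure.hausdorffMeasure (N : ℝ) (Subtype.val '' S : Set (E (N + 1))) =
      Measure.hausdorffMeasure (N : ℝ) S :=
    isometry_subtype_coe.hausdorffMeasure_image (Or.inl (Nat.cast_nonneg N)) S
  have h3 : Measure.hausdorffMeasure (N : ℝ) (e '' S) = Measure.hausdorffMeasure (N : ℝ) S :=
    e.isometry.hausdorffMeasure_image (Or.inl (Nat.cast_nonneg N)) S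
  have h4 : (volume : Measure (E N)) (e '' S) = volume S := by
    have a1 : e '' S = e.symm ⁻¹' S := e.toEquiv.image_eq_preimage_symm S
    rw [a1]
    exact e.symm.measurePreserving.measure_preimage hSm.nullMeasurableSet
  rw [hd, h1, h2, ← h3]
  have h5 : μ (e '' S) = (Measure.addHaarScalarFactor μ volume : ℝ≥0∞) * volume S := by
    have a2 := congrArg (fun ν : Measure (E N) => ν (e '' S)) hμ
    simp only [Measure.smul_apply, h4, ENNReal.smul_def, smul_eq_mul] at a2
    exact a2
  show (μ (e '' S)).toReal = _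
  rw [h5, ENNReal.toReal_mul, ENNReal.coe_toReal]
  rfl

end Pool.Agent.J4H45.PZ
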